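import Mathlib

set_option autoImplicit false

namespace Pool.Agent.Results.MP_2ae182_co.Above

/-- The map reversing the first `k` positions of `Fin n` (for `k ≤ n`). -/
def revFun (n k : ℕ) (i : Fin n) : Fin n :=
  if h : i.val < k ∧ k ≤ n then ⟨k - 1 - i.val, by omega⟩ else i

theorem revFun_inv (n k : ℕ) : Function.Involutive (revFun n k) := by
  intro i
  apply Fin.ext
  unfold revFun
  by_cases h : i.val < k ∧ k ≤ n
  · have h2 : k - 1 - i.val < k ∧ k ≤ n := by omega
    simp only [h, h2, and_self, dite_true]
    omega
  · simp only [h, dite_false]

/-- The prefix reversal `r_k` in the symmetric group on `Fin n`. -/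
def rev (n k : ℕ) : Equiv.Perm (Fin n) := (revFun_inv n k).toPerm

/-- The pancake graph: `π` and `π * r_k` are adjacent for `2 ≤ k ≤ n`. -/
def pancake (n : ℕ) : SimpleGraph (Equiv.Perm (Fin n)) :=
  SimpleGraph.fromRel fun π σ => ∃ k, 2 ≤ k ∧ k ≤ n ∧ σ = π * rev n k

/-- `G` has a `k`-symmetric Hamiltonian cycle `x 0, ..., x (N-1)`, written as an `N`-periodic
sequence, where `N` is the number of vertices. -/
def HasSymCycle {V : Type} [Fintype V] (G : SimpleGraph V) (k : ℕ) : Prop :=
  k ∣ Fintype.card V ∧ ∃ x : ℕ → V, (∀ i, x (i + Fintype.card V) = x i) ∧
    Set.BijOn x (Set.Iio (Fintype.card V)) Set.univ ∧ (∀ i, G.Adj (x i) (x (i + 1))) ∧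
    ∃ f : G ≃g G, ∀ i, f (x i) = x (i + Fintype.card V / k)

def toL {n : ℕ} (π : Equiv.Perm (Fin n)) : List ℕ := List.ofFn fun j => (π j).val

def flp (k : ℕ) (L : List ℕ) : List ℕ := (L.take k).reverse ++ L.drop k

theorem toL_mul {n : ℕ} (π : Equiv.Perm (Fin n)) (k : ℕ) (hk : k ≤ n) :
    toL (π * rev n k) = flp k (toL π) := by
  apply List.ext_getElem
  · simp [toL, flp]; omega
  · intro i h1 h2
    have hi : i < n := by simpa [toL] using h1
    by_cases h : i < k
    · simp [toL, flp, rev, revFun, List.getElem_append, h, hk, min_eq_left hk]
    · have h3 : k + (i - k) = i := by omega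
      simp [toL, flp, rev, revFun, List.getElem_append, h, hk, min_eq_left hk, h3]

theorem toL_inj {n : ℕ} (π σ : Equiv.Perm (Fin n)) (h : toL π = toL σ) : π = σ := by
  have := List.ofFn_injective h
  ext j
  exact congrFun this j

def wd (n W M i : ℕ) : ℕ := 2 + (W >>> (4 * (i % M))) % 16 % (n - 1)

def sq (n W M : ℕ) : ℕ → Equiv.Perm (Fin n)
  | 0 => 1
  | i + 1 => sq n W M i * rev n (wd n W M i)

def code : List ℕ → ℕ
  | [] => 0
  | a :: t => t.countP (fun b => Nat.blt b a) + (t.length + 1) * code t

def fN (a : ℕ) (f : ℕ → Bool) : Bool :=
  match a with
  | 0 => f 0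
  | n + 1 => f (n + 1)

theorem fN_eq (a : ℕ) (f : ℕ → Bool) : fN a f = f a := by cases a <;> rfl

def fL : List ℕ → (List ℕ → Bool) → Bool
  | [], f => f []
  | a :: t, f => fN a fun a' => fL t fun t' => f (a' :: t')

theorem fL_eq : ∀ (L : List ℕ) (f : List ℕ → Bool), fL L f = f L
  | [], _ => rfl
  | a :: t, f => by simp only [fL, fN_eq, fL_eq t]

def go (n W M : ℕ) (L0 : List ℕ) : ℕ → ℕ → List ℕ → ℕ → Bool
  | 0, _, L, _ => L == L0
  | f + 1, i, L, m => fN (code L) fun c => !(m.testBit c) &&
      fL (flp (wd n W M i) L) fun L' => fN (i + 1) fun i' => fN (m ||| 2 ^ c) fun m' =>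
        go n W M L0 f i' L' m'

theorem wd_bd (n W M i : ℕ) (hn : 2 ≤ n) : 2 ≤ wd n W M i ∧ wd n W M i ≤ n := by
  have := Nat.mod_lt ((W >>> (4 * (i % M))) % 16) (show 0 < n - 1 by omega)
  unfold wd
  omega

theorem go_spec (n W M : ℕ) (hn : 2 ≤ n) (L0 : List ℕ) : ∀ (f i m : ℕ),
    go n W M L0 f i (toL (sq n W M i)) m = true →
    (∀ a, i ≤ a → a < i + f → m.testBit (code (toL (sq n W M a))) = false) ∧
    (∀ a b, i ≤ a → a < b → b < i + f →
      code (toL (sq n W M a)) ≠ code (toL (sq n W M b))) ∧ toL (sq n W M (i + f)) = L0 := by
  intro f
  induction f with
  | zero =>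
    intro i m h
    refine ⟨fun a h1 h2 => by omega, fun a b h1 h2 h3 => by omega, ?_⟩
    simpa [go] using h
  | succ f ih =>
    intro i m h
    simp only [go, fN_eq, fL_eq, Bool.and_eq_true, Bool.not_eq_true'] at h
    obtain ⟨h1, h2⟩ := h
    rw [← toL_mul _ _ (wd_bd n W M i hn).2] at h2
    obtain ⟨e1, e2, e3⟩ := ih (i + 1) _ h2
    refine ⟨fun a ha hb => ?_, fun a b ha hab hb => ?_, ?_⟩
    · rcases Nat.eq_or_lt_of_le ha with rfl | ha
      · exact h1
      · have := e1 a ha (by omega)
        rw [Nat.testBit_or, Bool.or_eq_false_iff] at this
        exact this.1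
    · rcases Nat.eq_or_lt_of_le ha with rfl | ha
      · have := e1 b hab (by omega)
        rw [Nat.testBit_or, Bool.or_eq_false_iff, Nat.testBit_two_pow] at this
        simpa using this.2
      · exact e2 a b ha hab (by omega)
    · rw [← e3]; congr 2; omega

theorem sq_add (n W M t : ℕ) : ∀ i, sq n W M (i + M * t) = sq n W M (M * t) * sq n W M i
  | 0 => by simp [sq]
  | i + 1 => by
    have e : i + 1 + M * t = (i + M * t) + 1 := by omega
    have e2 : wd n W M (i + M * t) = wd n W M i := by simp [wd]
    rw [e, sq, sq, sq_add n W M t i, e2, mul_assoc]

/-- Left multiplication as an automorphism of the pancake graph. -/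
def lmul {n : ℕ} (g : Equiv.Perm (Fin n)) : pancake n ≃g pancake n where
  toEquiv := Equiv.mulLeft g
  map_rel_iff' := by
    intro a b
    simp [pancake, SimpleGraph.fromRel_adj, mul_assoc]

theorem main (n W M k : ℕ) (hn : 2 ≤ n) (hk : 0 < k) (hN : n.factorial = M * k)
    (h : go n W M (toL (1 : Equiv.Perm (Fin n))) (M * k) 0 (toL (1 : Equiv.Perm (Fin n))) 0
      = true) : HasSymCycle (pancake n) k := by
  have hc : Fintype.card (Equiv.Perm (Fin n)) = M * k := by
    rw [Fintype.card_perm, Fintype.card_fin, hN]
  obtain ⟨-, e2, e3⟩ := go_spec n W M hn _ (M * k) 0 0 h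
  have e4 : sq n W M (M * k) = 1 := toL_inj _ _ (by simpa using e3)
  unfold HasSymCycle
  rw [hc]
  refine ⟨Dvd.intro_left M rfl, sq n W M, fun i => ?_, ?_, fun i => ?_, lmul (sq n W M M),
    fun i => ?_⟩
  · rw [sq_add, e4, one_mul]
  · have hinj : Set.InjOn (sq n W M) (Set.Iio (M * k)) := by
      intro a ha b hb hab
      rcases lt_trichotomy a b with h1 | h1 | h1
      · exact absurd (by rw [hab]) (e2 a b (Nat.zero_le _) h1 (by simpa using hb))
      · exact h1
      · exact absurd (by rw [hab]) (e2 b a (Nat.zero_le _) h1 (by simpa using ha))
    refine ⟨fun _ _ => Set.mem_univ _, hinj, ?_⟩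
    have h1 : ((Finset.range (M * k)).image (sq n W M)).card = M * k := by
      rw [Finset.card_image_of_injOn (by simpa using hinj), Finset.card_range]
    have h2 := Finset.eq_univ_of_card _ (h1.trans hc.symm)
    intro v _
    have : v ∈ (Finset.range (M * k)).image (sq n W M) := h2 ▸ Finset.mem_univ v
    obtain ⟨a, ha, rfl⟩ := Finset.mem_image.1 this
    exact ⟨a, by simpa using ha, rfl⟩
  · have hb := wd_bd n W M i hn
    rw [pancake, SimpleGraph.fromRel_adj]
    refine ⟨fun he => ?_, Or.inl ⟨_, hb.1, hb.2, rfl⟩⟩
    rw [sq, left_eq_mul] at he
    have h0 := congrArg (fun p : Equiv.Perm (Fin n) => (p ⟨0, by omega⟩).val) he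
    have h3 : 0 < wd n W M i := by omega
    simp [rev, revFun, h3, hb.2] at h0
    omega
  · have := sq_add n W M 1 i
    rw [mul_one] at this
    rw [Nat.mul_div_cancel _ hk, this]
    rfl

def W5 : ℕ := 0x12023232121320321212

def W7 : ℕ := 0x130142454052301412030204301423042123253203010103503012132023014143121310343425245154513040354130350403542050520312352035420101031201534121054240532354012140520153510301043501513424203214240321232412313414101505145013123131024214134151034534012412143025250513240254325243242340214015404042102545140234542542043245013015452350134243134014543045424154132141323212423410130232453524142035431525010201010542420104250431201513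

def W8 : ℕ := 0x35415631243256024042426240461056142364121504213423265435252013056461061263062343256123015152101250105346236540312624562103231650313535254513145132620452106120263415156204621350243531360601254516312345452413262305253403262604621315154313510615250252465232136451230136421605062605323601263452163261652315024014254340361010340241230641643464354302014156414606132636420613245601243410651252130404010215304316125103452132042460454542623234543106141414043130564315046543241234145161051236054230353432514121413565136052402126030105264606435616256202620130403640131516316346146160414131436106530234301415010325020261313050525040456303402512613105240432154210646464530150313215060423403420412421463203245463603252651640203154303563241631306342315462636041041232326232064646536053521652060152306021014234043212030140242306421463526245654213621616465020653543212410326014213125413102136312503426236451423263202352430403402015643625621301565061452160463243215251052460431414341510545146305606141302121424542010232405025234641306062301352160121205320565425063124623160501361306341562161432620432141252532160352123060326360321315431204132014243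535450240130314034621204615606453502130304506453565136323642154652524203535142415462342360603042360651354642564615203541315602634262603264341514106420206265262053506205615106260416010406436342140104106010432310523612653060561410145265160543062123045134050623434616545136106140523103414264325026320361464216043124102563265342135212630235452305013102140504121505463056356216302415630120154641512641426450536241426531564030653514346150101625210146061310403462465034343046056142430252616151626012315364502102134530456021632320543141305021563613645354151315342516120543451016202150150525246545612650251205432635230514325103202410432613562135206164230351354235012406526265345261515435145242164603142165406561062032312312040312401264205353435460420250315030132420523510243563205415305253053151626535030642634234130631415036236121236062303546014606421354163420206304242361640261626402405104024521640451014510162136031246163451250241032632156513465603012510620153632030621264515123041642536052124353261231342065625412153235320460320263252530124324630450650534501432645145216560642365016125216430403463154245616206304616043256142145030364613210136064610341513424543565123241613120635241624132013465312041635341065425106030216030141625160620425302614241012464346126242626303031504051242325431016240356234036402620264240645241354010350254540363241031203243142302606531434146362304242150652042165046452351026264612160346016253245623561621651053121252401052415265430231363201632654325103530123642513436136560613653045314321353401654516125052363562431213236214124231251213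

theorem c5 : go 5 W5 20 (toL (1 : Equiv.Perm (Fin 5))) (20 * 6) 0
    (toL (1 : Equiv.Perm (Fin 5))) 0 = true := by decide +kernel

theorem c7 : go 7 W7 420 (toL (1 : Equiv.Perm (Fin 7))) (420 * 12) 0
    (toL (1 : Equiv.Perm (Fin 7))) 0 = true := by decide +kernel

theorem c8 : go 8 W8 2688 (toL (1 : Equiv.Perm (Fin 8))) (2688 * 15) 0
    (toL (1 : Equiv.Perm (Fin 8))) 0 = true := by decide +kernel

theorem result : HasSymCycle (pancake 5) 6 ∧ HasSymCycle (pancake 7) 12 ∧
    HasSymCycle (pancake 8) 15 :=
  ⟨main 5 W5 20 6 (by norm_num) (by norm_num) (by decide) c5,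
    main 7 W7 420 12 (by norm_num) (by norm_num) (by decide) c7,
    main 8 W8 2688 15 (by norm_num) (by norm_num) (by decide) c8⟩

end Pool.Agent.Results.MP_2ae182_co.Above
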